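import Pool.Agent.W223.RA.Stms

/-! Project RA: assembly. -/

set_option autoImplicit false

namespace Pool.Agent.W804.RA

open Finset Pool.Agent.W223.RA

noncomputable section

theorem fin_le (X : ℝ) : {R : ℕ | (R : ℝ) ≤ X}.Finite := by
  refine (Set.finite_Iic ⌊X⌋₊).subset ?_
  intro R hR
  exact Nat.le_floor hR

theorem card_le (X : ℝ) (hX : 0 ≤ X) : (({R : ℕ | (R : ℝ) ≤ X}.ncard : ℕ) : ℝ) ≤ X + 1 := by
  have h1 : {R : ℕ | (R : ℝ) ≤ X} ⊆ ((Finset.range (⌊X⌋₊ + 1) : Finset ℕ) : Set ℕ) := by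
    intro R hR
    rw [Finset.mem_coe, Finset.mem_range]
    exact Nat.lt_succ_of_le (Nat.le_floor hR)
  have h2 := Set.ncard_le_ncard h1 (Finset.finite_toSet _)
  rw [Set.ncard_coe_finset, Finset.card_range] at h2
  have h3 : (({R : ℕ | (R : ℝ) ≤ X}.ncard : ℕ) : ℝ) ≤ ((⌊X⌋₊ + 1 : ℕ) : ℝ) := by
    exact_mod_cast h2
  have h4 := Nat.floor_le hX
  push_cast at h3
  linarith

theorem n3_comm (a b : ℕ) : N3 a b = N3 b a := by
  unfold N3
  ring

theorem log_n3 (a b : ℕ) (ha : 0 < a) (hb : 0 < b) :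
    ∑ p ∈ (N3 a b).primeFactors, ((N3 a b).factorization p : ℝ) * Real.log p ≤
      3 * Real.log ((a + b : ℕ) : ℝ) := by
  have h1 : ∑ p ∈ (N3 a b).primeFactors, ((N3 a b).factorization p : ℝ) * Real.log p =
      Real.log (N3 a b : ℝ) := by
    rw [Real.log_nat_eq_sum_factorization, Finsupp.sum, Nat.support_factorization]
  rw [h1]
  have h2 : (N3 a b : ℝ) ≤ ((a + b : ℕ) : ℝ) ^ 3 := by
    have h3 : N3 a b ≤ (a + b) ^ 3 := by
      unfold N3
      calc a * b * (a + b) ≤ (a + b) * (a + b) * (a + b) := by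
            apply Nat.mul_le_mul_right
            apply Nat.mul_le_mul <;> omega
        _ = (a + b) ^ 3 := by ring
    exact_mod_cast h3
  have h4 : (0 : ℝ) < (N3 a b : ℝ) := by
    have : 0 < N3 a b := by unfold N3; positivity
    exact_mod_cast this
  calc Real.log (N3 a b : ℝ) ≤ Real.log (((a + b : ℕ) : ℝ) ^ 3) := Real.log_le_log h4 h2
    _ = 3 * Real.log ((a + b : ℕ) : ℝ) := by rw [Real.log_pow]; norm_num

theorem tMAIN (hOM : Pool.Agent.W223.RA.StmtOM) (hTR : Pool.Agent.W223.RA.StmtTR)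
    (hPRT : Pool.Agent.W223.RA.StmtPRT) (hFL : Pool.Agent.W223.RA.StmtFL)
    (hFH : Pool.Agent.W223.RA.StmtFH) : Pool.Agent.W223.RA.StmtMAIN := by
  intro δ hδ0 hδ1
  obtain ⟨X1, hX1, hOM'⟩ := hOM
  obtain ⟨X2, hX2, hTR'⟩ := hTR
  obtain ⟨X3, hX3, hFL'⟩ := hFL δ hδ0 hδ1
  obtain ⟨X4, hX4, hFH'⟩ := hFH δ hδ0 hδ1
  set α : ℝ := 1 - (1 - 3 * δ) / 11 with hα
  have hα1 : (181 : ℝ) / 200 ≤ α := by rw [hα]; linarith
  set Y : ℝ := max (max X1 X2) (max X3 X4) with hY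
  have hY1 : X1 ≤ Y := (le_max_left _ _).trans (le_max_left _ _)
  have hY2 : X2 ≤ Y := (le_max_right _ _).trans (le_max_left _ _)
  have hY3 : X3 ≤ Y := (le_max_left _ _).trans (le_max_right _ _)
  have hY4 : X4 ≤ Y := (le_max_right _ _).trans (le_max_right _ _)
  refine ⟨Y + 4, ?_⟩
  intro X hX
  have hXα : 1 ≤ X ^ α := Real.one_le_rpow hX (by linarith)
  rcases lt_or_ge X Y with hlt | hge
  · have h1 : {R : ℕ | (R : ℝ) ≤ X ∧ ∃ a b c : ℕ, 0 < a ∧ 0 < b ∧ Nat.Coprime a b ∧ a + b = c ∧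
        ∏ p ∈ (a * b * c).primeFactors, p = R ∧ Real.log c ≤ X ^ δ} ⊆
        {R : ℕ | (R : ℝ) ≤ X} := fun R hR => hR.1
    have h2 := Set.ncard_le_ncard h1 (fin_le X)
    have h3 := card_le X (by linarith)
    have h4 : (({R : ℕ | (R : ℝ) ≤ X ∧ ∃ a b c : ℕ, 0 < a ∧ 0 < b ∧ Nat.Coprime a b ∧ a + b = c ∧
        ∏ p ∈ (a * b * c).primeFactors, p = R ∧ Real.log c ≤ X ^ δ}.ncard : ℕ) : ℝ) ≤
        (({R : ℕ | (R : ℝ) ≤ X}.ncard : ℕ) : ℝ) := by exact_mod_cast h2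
    have h5 : Y + 4 ≤ (Y + 4) * X ^ α := le_mul_of_one_le_right (by linarith) hXα
    linarith
  · have hX3' : 3 ≤ X := by linarith
    set A1 : Set ℕ := {R : ℕ | 1 ≤ R ∧ (R : ℝ) ≤ X ∧
      Real.log X / (10 * Real.log (Real.log X)) ≤ (R.primeFactors.card : ℝ)} with hA1
    set A2 : Set ℕ := RadSet X (fun a b => Real.log ((a + b : ℕ) : ℝ) ≤
      Real.log X ^ ((9 : ℝ) / 4)) with hA2
    set A3 : Set ℕ := RadSet X (fun a b => Real.log X ^ ((9 : ℝ) / 4) ≤
      Real.log ((a + b : ℕ) : ℝ) ∧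
      Real.log ((a + b : ℕ) : ℝ) ≤ X ^ δ ∧
      ∃ s ⊆ (N3 a b).primeFactors,
        ∑ p ∈ s, ((N3 a b).factorization p : ℝ) * Real.log p ≤
          7 / 8 * Real.log ((a + b : ℕ) : ℝ) ∧
        (1 - 3 * δ) / 10 * ∑ p ∈ (N3 a b).primeFactors, Real.log p ≤ ∑ p ∈ s, Real.log p) with hA3
    set A4 : Set ℕ := RadSet X (fun a b => Real.log X ^ ((9 : ℝ) / 4) ≤
      Real.log ((a + b : ℕ) : ℝ) ∧
      Real.log ((a + b : ℕ) : ℝ) ≤ X ^ δ ∧
      ∃ p ∈ (N3 a b).primeFactors,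
        (1 + 7 * δ) / 10 * ∑ p ∈ (N3 a b).primeFactors, Real.log p ≤ Real.log p) with hA4
    have c1 : (A1.ncard : ℝ) ≤ X ^ ((181 : ℝ) / 200) := hOM' X (hY1.trans hge)
    have c2 : (A2.ncard : ℝ) ≤ X ^ ((181 : ℝ) / 200) := hTR' X (hY2.trans hge)
    have c3 : (A3.ncard : ℝ) ≤ X ^ α := hFL' X (hY3.trans hge)
    have c4 : (A4.ncard : ℝ) ≤ X ^ α := hFH' X (hY4.trans hge)
    have hle : X ^ ((181 : ℝ) / 200) ≤ X ^ α := Real.rpow_le_rpow_of_exponent_le hX hα1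
    have f1 : A1.Finite := (fin_le X).subset (fun R hR => hR.2.1)
    have f2 : A2.Finite := (fin_le X).subset (fun R hR => hR.1)
    have f3 : A3.Finite := (fin_le X).subset (fun R hR => hR.1)
    have f4 : A4.Finite := (fin_le X).subset (fun R hR => hR.1)
    have hsub : {R : ℕ | (R : ℝ) ≤ X ∧ ∃ a b c : ℕ, 0 < a ∧ 0 < b ∧ Nat.Coprime a b ∧ a + b = c ∧
        ∏ p ∈ (a * b * c).primeFactors, p = R ∧ Real.log c ≤ X ^ δ} ⊆
        (A1 ∪ A2) ∪ (A3 ∪ A4) := by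
      rintro R ⟨hRX, a0, b0, c0, ha0, hb0, hco, hc, hprod, hlog⟩
      subst hc
      obtain ⟨a, b, hT, hR, hL⟩ : ∃ a b : ℕ, Trip a b ∧ ∏ p ∈ (N3 a b).primeFactors, p = R ∧
          Real.log ((a + b : ℕ) : ℝ) ≤ X ^ δ := by
        rcases le_total a0 b0 with hab | hab
        · exact ⟨a0, b0, ⟨ha0, hab, hco⟩, hprod, hlog⟩
        · refine ⟨b0, a0, ⟨hb0, hab, hco.symm⟩, ?_, ?_⟩
          · rw [n3_comm]
            exact hprod
          · rw [Nat.add_comm]
            exact hlog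
      have hR1 : 1 ≤ R := by
        rw [← hR]
        apply Nat.one_le_iff_ne_zero.2
        apply Finset.prod_ne_zero_iff.2
        intro p hp
        exact (Nat.prime_of_mem_primeFactors hp).ne_zero
      rcases le_total (Real.log X / (10 * Real.log (Real.log X))) (R.primeFactors.card : ℝ)
        with hw | hw
      · exact Or.inl (Or.inl ⟨hR1, hRX, hw⟩)
      rcases le_total (Real.log ((a + b : ℕ) : ℝ)) (Real.log X ^ ((9 : ℝ) / 4)) with hs | hs
      · exact Or.inl (Or.inr ⟨hRX, hw, a, b, hT, hR, hs⟩)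
      right
      have ha : 0 < a := hT.1
      have hb : 0 < b := lt_of_lt_of_le hT.1 hT.2.1
      have hlogX : 0 < Real.log X := Real.log_pos (by linarith)
      have hLpos : 0 < Real.log ((a + b : ℕ) : ℝ) :=
        lt_of_lt_of_le (Real.rpow_pos_of_pos hlogX _) hs
      have hne : (N3 a b).primeFactors.Nonempty := by
        rw [Nat.nonempty_primeFactors]
        unfold N3
        have h1 : 1 ≤ a * b := Nat.mul_pos ha hb
        calc 1 < a + b := by omega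
          _ = 1 * (a + b) := (one_mul _).symm
          _ ≤ a * b * (a + b) := Nat.mul_le_mul_right _ h1
      have hlp : ∀ p ∈ (N3 a b).primeFactors, (0 : ℝ) ≤ Real.log p := by
        intro p hp
        apply Real.log_nonneg
        exact_mod_cast (Nat.prime_of_mem_primeFactors hp).one_lt.le
      rcases hPRT (N3 a b).primeFactors (fun p => Real.log p)
        (fun p => ((N3 a b).factorization p : ℝ) * Real.log p) (Real.log ((a + b : ℕ) : ℝ))
        ((7 - 21 * δ) / 10) hLpos (by linarith) (by linarith) hne hlp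
        (fun p hp => mul_nonneg (Nat.cast_nonneg _) (hlp p hp)) (log_n3 a b ha hb)
        with ⟨s, hsub, h1, h2⟩ | ⟨p, hp, h1⟩
      · left
        refine ⟨hRX, hw, a, b, hT, hR, hs, hL, s, hsub, h1, ?_⟩
        have e : (7 - 21 * δ) / 10 / 7 = (1 - 3 * δ) / 10 := by ring
        rw [e] at h2
        exact h2
      · right
        refine ⟨hRX, hw, a, b, hT, hR, hs, hL, p, hp, ?_⟩
        have e : (1 - (7 - 21 * δ) / 10) / 3 = (1 + 7 * δ) / 10 := by ring
        rw [e] at h1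
        exact h1
    have h1 := Set.ncard_le_ncard hsub ((f1.union f2).union (f3.union f4))
    have h2 := Set.ncard_union_le (A1 ∪ A2) (A3 ∪ A4)
    have h3 := Set.ncard_union_le A1 A2
    have h4 := Set.ncard_union_le A3 A4
    have h5 : (({R : ℕ | (R : ℝ) ≤ X ∧ ∃ a b c : ℕ, 0 < a ∧ 0 < b ∧ Nat.Coprime a b ∧ a + b = c ∧
        ∏ p ∈ (a * b * c).primeFactors, p = R ∧ Real.log c ≤ X ^ δ}.ncard : ℕ) : ℝ) ≤
        (A1.ncard : ℝ) + A2.ncard + (A3.ncard + A4.ncard) := by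
      have h6 := h1.trans (h2.trans (Nat.add_le_add h3 h4))
      exact_mod_cast h6
    have h7 : 4 * X ^ α ≤ (Y + 4) * X ^ α :=
      mul_le_mul_of_nonneg_right (by linarith) (by linarith)
    linarith

end

end Pool.Agent.W804.RA
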